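import Pool.Agent.U725.MG.RatInd

/-!
# 1-motives over powers of an elliptic curve: the smallest subtorsor containing the period matrix

Let `E = ℂ / L` be an elliptic curve over the field of algebraic numbers, *with or without complex multiplication*, and
`End⁰ = End(E) ⊗ ℚ ⊆ ℂ` (`endo L`). Let `p_0, …, p_(ρ-1)` be algebraic points of `E` with elliptic logarithms `w_j`, and
`α_i = exp (b_i)`, `i < m`, algebraic numbers, such that the `p_j` are linearly independent over `End(E)` modulo torsion and
the `α_i` are multiplicatively independent. For `j, k < ρ` and `ε ∈ End⁰` let `M(ε p_j, p_k) = [ℤ → G]` be a 1-motive, where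
`G` is the extension of `E` by `G_m` which belongs to `p_k`, and `1` maps to some algebraic point of `G` above `ε p_j` (all
this up to isogeny). We take finitely many of them, `M_e` with `j = P e`, `k = Q e`, `ε = ε_e`, `e ∈ I`, and

  `M = h_1(E) ⊕ ⨁_j [ℤ → E] ⊕ ⨁_(e ∈ I) M_e ⊕ ⨁_i [ℤ → G_m]`.

The endomorphism `β` acts on the de Rham realization of `E`, with the basis `ω = dx/y`, `η = x dx/y`, by
`ω ↦ β ω`, `η ↦ κ (β - β̄) ω + β̄ η`, where `κ` (`kappa L`) is the number for which `η(l) - κ l` is a multiple of the complex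
conjugate of `l`, for all periods `l` (it is algebraic if `E` has complex multiplication; otherwise `β - β̄ = 0`). So in
suitable bases the period matrix of `M` is block diagonal, with the blocks

* `Ω = (ω₁, η₁; ω₂, η₂)`, the periods and quasi-periods of `E`;
* `(Ω, 0; u_j, 1)` with `u_j = (w_j, ζ(w_j))`;
* `(2πi, 0, 0; ξ, Ω, 0; s_e, u', 1)` with `u' = (ε w_j, κ (ε - ε̄) w_j + ε̄ ζ(w_j))`, `ε = ε_e`, `j = P e`, the periods of the
  third kind `ξ = (η_a w_k - ω_a ζ(w_k))_a`, `k = Q e`, and an elliptic integral of the third kind `s_e`;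
* `(2πi, 0; b_i, 1)`.

We assume that the Hermitian matrices `ε_e E_(P e, Q e) + ε̄_e E_(Q e, P e)`, `e ∈ I`, are linearly independent over `ℚ`
(without complex multiplication: `ε_e ≠ 0` and the unordered pairs `{P e, Q e}` are distinct). This is natural since
`M(ε p_j, p_k)` is dual to `M(ε̄ p_k, p_j)` up to isogeny and a Kummer motive. In particular the antisymmetric case `j = k`,
`ε̄ = -ε` is excluded: these 1-motives are, up to Kummer motives, those of Ribet's sections, whose period `s_e` is not
independent of the other ones. Every 1-motive over the algebraic numbers whose abelian part is isogenous to a power of `E`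
belongs to the tensor category generated by a motive `M` as above.

**Theorem.** Let `K` be a field of algebraic numbers over which the endomorphisms of `E` are defined. For `c` a period
matrix let `Ω_c` be the smallest `K`-subtorsor of `GL = Iso(M_dR, M_B)` which contains `c` (the intersection of all of
them). Then, for the period matrices `c` of `M` and `Ω` of `E`,

  `Ω_c = {shape (X, l, Y, t, z) : X ∈ Ω_Ω, det X = k l}`

is the set of all matrices of the shape of the period matrix whose first block is in `Ω_Ω`; here `det Ω = k 2πi`. If `E` has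
no complex multiplication, then `Ω_Ω` is all of `GL_2`.

If `E` has complex multiplication, `Ω_Ω` is the torsor under the two-dimensional torus of all `X` which commute with the
endomorphisms, by Chudnovsky's theorem on the algebraic independence of `ω₁` and `π` (this is not used and not proved here).
All of the conditions which define the set of all `shape (X, l, Y, t, z)`, `det X = k l`, with `X` compatible with `End(E)`,
are given by morphisms of motives (weight filtration, endomorphisms, duality, Weil pairing). So the torsor of motivic periods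
`Ω^mot_M` is contained in it, and it is a subtorsor which contains the period matrix. Hence, with and without complex
multiplication,

  `Ω_M = Ω^mot_M`:

no proper subtorsor of the torsor of motivic periods over the algebraic numbers contains the period matrix. This is predicted
by the period conjecture (which says that there are no subvarieties at all). Here the integrals of the third kind `s_e` are
arbitrary complex numbers: no information on them is needed.

The theorem `OneMotivesMumfordTate` of the library is on torsors (over the algebraic numbers) under groups over `ℚ`, that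
is on `Ω^dRB = Ω^And`. Here the groups are also over the algebraic numbers, and there are many more of them.

## Proof

Without complex multiplication see `Pool/Agent/U725/OM`: all derivations of `ℂ` over the algebraic numbers give logarithmic
derivatives of the period matrix in the Lie algebra of `T` (a subtorsor which contains the period matrix); its image in
`𝔤𝔩_2` is irreducible, etc.

With complex multiplication the group is solvable over the algebraic numbers: after a base change the period matrix is an
element of a group `U ⋊ 𝔾_m²`, with `x₁ = ω₁`, `x₂ = η₁ - κ ω₁` on the diagonal (`CMTrans.lean`). The general criterion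
`MG.crit` (`Crit.lean`) for groups `U ⋊` (torus of any rank) reduces the inclusion `U ⊆ T T⁻¹` to the following: the
characters `χ` of the torus which occur in `𝔲 / [𝔲, 𝔲]`, and the quotients of two of them, are transcendental at
`(x₁, x₂)`, and there is no linear form `f ≠ 0` over the algebraic numbers on the part of character `χ` of
`𝔲 / [𝔲, 𝔲]` whose value at the logarithm of the period matrix is in `ℚ̄ + ℚ̄ χ(x)`. Here `𝔲 / [𝔲, 𝔲]` has
three characters, and the forms are those in `(w_j)`, in `(ζ(w_j) - κ w_j)` and in `(b_i)`, because the commutators give all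
`t_e` (this is where the Hermitian matrices appear, `CMCrit2.lean`). The inputs are the linear independence over
`ℚ̄` of `1` and integrals of the second kind `s ζ(w) + r w` for a fixed ratio `s : r`
(`Pool.Agent.W245.EB.second_kind`), applied to `(0 : 1)`, `(1 : -κ)` and `(-r : 1 + r κ)`, and Baker's theorem
(`CMEll.lean`). So every `K`-subtorsor which contains the period matrix is stable under all unipotent elements, and hence is
the inverse image of a subtorsor which contains `Ω` (`Shape.lean`).
-/

set_option autoImplicit false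

open Matrix
open scoped PeriodPair ComplexConjugate

namespace Pool.Agent.Results.MP_5d33ca_ag.EllipticOneMotives

/-- `T` is (the set of complex points of) a `K`-subtorsor of `GL_B = Iso (M_dR, M_B)`: it is closed under `x y⁻¹ z`, and
it is defined in `GL_B` by polynomials with coefficients in `K`. -/
def IsSubtorsor (K : Subfield ℂ) {B : Type} [Fintype B] [DecidableEq B] (T : Set (Matrix B B ℂ)) : Prop :=
  (∀ x ∈ T, ∀ y ∈ T, ∀ z ∈ T, x * y⁻¹ * z ∈ T) ∧ ∃ J : Set (MvPolynomial (B × B) K), ∀ x : Matrix B B ℂ, x ∈ T ↔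
    IsUnit x ∧ ∀ p ∈ J, MvPolynomial.eval (fun b => x b.1 b.2) (MvPolynomial.map (algebraMap K ℂ) p) = 0

/-- the smallest `K`-subtorsor which contains `c`, that is the intersection of all of them -/
def Omega (K : Subfield ℂ) {B : Type} [Fintype B] [DecidableEq B] (c : Matrix B B ℂ) : Set (Matrix B B ℂ) :=
  {x | ∀ T : Set (Matrix B B ℂ), IsSubtorsor K T → c ∈ T → x ∈ T}

/-- The Weierstrass zeta function `ζ(z) = 1/z + ∑_{l ≠ 0} (1/(z - l) + 1/l + z/l²)` (in Lean `1/0 = 0`, so that the term
with `l = 0` of the sum below is `1/z`). -/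
noncomputable def zetaW (L : PeriodPair) (z : ℂ) : ℂ := ∑' l : L.lattice, (1 / (z - l) + 1 / l + z / l ^ 2)

/-- the matrix of the periods `ω` and the quasi-periods `2 ζ(ω / 2)` -/
noncomputable def periods (L : PeriodPair) : Matrix (Fin 2) (Fin 2) ℂ :=
  !![L.ω₁, 2 * zetaW L (L.ω₁ / 2); L.ω₂, 2 * zetaW L (L.ω₂ / 2)]

/-- `End(E) ⊗ ℚ` -/
def endo (L : PeriodPair) : Set ℂ := {β | ∃ n : ℕ, 0 < n ∧ ∀ ω ∈ L.lattice, (n * β) * ω ∈ L.lattice}

/-- the number `κ` for which the quasi-periods `η(ω)` of `ω = ω₁, ω₂` are `κ ω + μ ω̄` with the same `μ` -/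
noncomputable def kappa (L : PeriodPair) : ℂ :=
  (2 * zetaW L (L.ω₂ / 2) - conj (L.ω₂ / L.ω₁) * (2 * zetaW L (L.ω₁ / 2))) / (L.ω₂ - conj (L.ω₂ / L.ω₁) * L.ω₁)

/-- the index set of the period matrix -/
abbrev Idx (ρ m : ℕ) (I : Type) : Type := Fin 2 ⊕ ((Fin 3 × Fin ρ) ⊕ ((Fin 4 × I) ⊕ (Fin 2 × Fin m)))

/-- the matrices of the shape of the period matrix -/
def shape {ρ m : ℕ} {I : Type} [DecidableEq I] (κ : ℂ) (P Q : I → Fin ρ) (ε : I → ℂ) (X : Matrix (Fin 2) (Fin 2) ℂ)
    (l : ℂ) (Y : Fin ρ → Fin 2 → ℂ) (t : I → ℂ) (z : Fin m → ℂ) : Matrix (Idx ρ m I) (Idx ρ m I) ℂ :=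
  fromBlocks X 0 0 (fromBlocks
    (blockDiagonal fun j => !![X 0 0, X 0 1, 0; X 1 0, X 1 1, 0; Y j 0, Y j 1, 1]) 0 0
    (fromBlocks (blockDiagonal fun e =>
      !![l, 0, 0, 0;
        X 0 1 * Y (Q e) 0 - X 0 0 * Y (Q e) 1, X 0 0, X 0 1, 0;
        X 1 1 * Y (Q e) 0 - X 1 0 * Y (Q e) 1, X 1 0, X 1 1, 0;
        t e, ε e * Y (P e) 0, κ * (ε e - conj (ε e)) * Y (P e) 0 + conj (ε e) * Y (P e) 1, 1]) 0 0
    (blockDiagonal fun i => !![l, 0; z i, 1])))

theorem omega_eq {K : Subfield ℂ} {B : Type} [Fintype B] [DecidableEq B] (c : Matrix B B ℂ) :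
    Omega K c = Pool.Agent.U725.MG.Om K c := by
  ext x
  constructor
  · exact fun h T hT hc => h T (Pool.Agent.U725.MT.subT_iff.2 hT) hc
  · exact fun h T hT hc => h T (Pool.Agent.U725.MT.subT_iff.1 hT) hc

theorem kappa_eq (L : PeriodPair) : kappa L = Pool.Agent.U725.CMA.kap L := by
  unfold Pool.Agent.U725.CMA.kap
  rw [Pool.Agent.U725.OM.eta_half L.ω₁_mem_lattice (Pool.Agent.U725.OM.half_notMem_one L),
    Pool.Agent.U725.OM.eta_half L.ω₂_mem_lattice (Pool.Agent.U725.OM.half_notMem_two L)]
  rfl

/-- **Main result.** -/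
theorem result (L : PeriodPair) (h2 : IsAlgebraic ℚ L.g₂) (h3 : IsAlgebraic ℚ L.g₃)
    -- elliptic logarithms of algebraic points and logarithms of algebraic numbers
    {ρ m : ℕ} (w : Fin ρ → ℂ) (hw : ∀ j, IsAlgebraic ℚ (℘[L] (w j)))
    (b : Fin m → ℂ) (hb : ∀ i, IsAlgebraic ℚ (Complex.exp (b i)))
    (hwi : ∀ β : Fin ρ → ℂ, (∀ j, β j ∈ endo L) → (∃ n : ℕ, 0 < n ∧ n * ∑ j, β j * w j ∈ L.lattice) → β = 0)
    (hbi : LinearIndependent ℚ (Fin.cons (2 * Real.pi * Complex.I) b : Fin (m + 1) → ℂ))
    -- pairs of points with an endomorphism, and arbitrary numbers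
    {I : Type} [Fintype I] [DecidableEq I] (P Q : I → Fin ρ) (ε : I → ℂ) (hε : ∀ e, ε e ∈ endo L)
    (hH : LinearIndependent ℚ fun e : I =>
      (Matrix.single (P e) (Q e) (ε e) + Matrix.single (Q e) (P e) (conj (ε e)) : Matrix (Fin ρ) (Fin ρ) ℂ))
    (s : I → ℂ) :
    ∃ k : ℤ, k ≠ 0 ∧ (periods L).det = k * (2 * Real.pi * Complex.I) ∧
      ∀ K : Subfield ℂ, (∀ x ∈ K, IsAlgebraic ℚ x) →
        -- the endomorphisms are defined over `K`
        (∀ β ∈ endo L, β ∈ K ∧ kappa L * (β - conj β) ∈ K) →
        Omega K (shape (kappa L) P Q ε (periods L) (2 * Real.pi * Complex.I) (fun j => ![w j, zetaW L (w j)]) s b) =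
          {x | ∃ X ∈ Omega K (periods L), ∃ (l : ℂ) (Y : Fin ρ → Fin 2 → ℂ) (t : I → ℂ) (z : Fin m → ℂ),
            X.det = k * l ∧ x = shape (kappa L) P Q ε X l Y t z} ∧
        ((∀ β ∈ endo L, ∃ q : ℚ, β = q) → Omega K (periods L) = {X | X.det ≠ 0}) := by
  obtain ⟨k, hk, hleg⟩ := Pool.Agent.TH813.Ell.legendre L
  rw [Pool.Agent.U725.OM.eta_half L.ω₁_mem_lattice (Pool.Agent.U725.OM.half_notMem_one L),
    Pool.Agent.U725.OM.eta_half L.ω₂_mem_lattice (Pool.Agent.U725.OM.half_notMem_two L)] at hleg
  have hleg' : L.ω₁ * (2 * H667R3.zeta L (L.ω₂ / 2)) - 2 * H667R3.zeta L (L.ω₁ / 2) * L.ω₂ =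
      k * (2 * Real.pi * Complex.I) := by
    rw [← hleg]
    ring
  have hdet : (periods L).det = k * (2 * Real.pi * Complex.I) := by
    rw [← hleg', periods, Matrix.det_fin_two_of]
    rfl
  refine ⟨k, hk, hdet, fun K hK hKE => ?_⟩
  have hKQ : K ≤ Pool.Agent.U725.OM.QB := fun x hx => Pool.Agent.U725.OM.mem_QB.2 (hK x hx)
  have hX0 : periods L = Pool.Agent.U725.CMA.X0 L := rfl
  rw [kappa_eq, omega_eq, omega_eq]
  constructor
  · exact Pool.Agent.U725.CMA.all_final h2 h3 hw hwi hb hbi hε (Pool.Agent.U725.CMA.herm_real hε hH) s hk hleg' hKQ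
      (fun β hβ => (hKE β hβ).1) (fun β hβ => by
        rw [← kappa_eq]
        exact (hKE β hβ).2)
  · intro hL
    exact Pool.Agent.U725.CMA.curve_final h2 h3 hL hk hleg' hKQ

end Pool.Agent.Results.MP_5d33ca_ag.EllipticOneMotives
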