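import Pool.Agent.U100.FP.Ext3

/-!
# 1-motives over products of elliptic curves are independent of all other motives, up to explicit exceptions

Let `N` be an arbitrary motive over the field `ℚ̄` of algebraic numbers (in fact, any invertible matrix `N`, as its period
matrix), with a filtration whose realisations are defined over `ℚ̄`: there are invertible matrices `a`, `b` over `ℚ̄` such
that `a N b` is block triangular. Let `n_v` be the ranks of the graded pieces. Let `E_i = ℂ / L_i`, `i ∈ ι`, be elliptic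
curves over `ℚ̄` without complex multiplication, no two of which are linked by an algebraic relation between their periods
(of the first and second kind) of rank two; by Wüstholz's theorem this means that they are not isogenous. Nothing is
assumed when there is one curve only.

**Theorem.** There is a finite set `X` of exceptional indices, with `3 |X| ≤ ∑_v (n_v² - 1)`, such that

* for `i ∈ X` all the quotients of periods and quasi-periods of `E_i` are algebraic over the field which is generated by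
  the entries of the diagonal blocks of size at least two of `a N b`, that is by the periods of the graded pieces of rank
  at least two;
* for every field `K` of algebraic numbers and **all** 1-motives `M_1, …, M_r` over `ℚ̄` whose abelian parts are powers of
  different curves `E_i` with `i ∉ X`, the smallest `K`-subtorsor of `GL` which contains the period matrix of
  `M_1 ⊕ … ⊕ M_r ⊕ ℚ(1) ⊕ N` is the fibre product

    `Ω_(M_1) × … × Ω_(M_r) × Ω_(ℚ(1) ⊕ N)` over `Ω_(ℚ(1)) = 𝔾_m`,

  and `Ω_(M_j)` is the motivic torsor of `M_j`, of dimension `4 + 2 ρ_j + m_j`.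

In particular there are no exceptions if all `n_v = 1`: for mixed Tate motives, motives with complex multiplication, all
extensions of these, and all motives whose period matrix becomes triangular over `ℚ̄`; and at most one if one graded piece
has rank two and all others have rank one. (With a sum `N` of 1-motives `[ℤ → G_m]` one gets all 1-motives whose abelian
part is isogenous to a product of the curves `E_i`.)

Since `Ω^mot_(M ⊕ ℚ(1) ⊕ N)` is contained in the fibre product of the motivic torsors, the equality `Ω = Ω^mot` (a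
consequence of the period conjecture) for `ℚ(1) ⊕ N` implies it for `M_1 ⊕ … ⊕ M_r ⊕ ℚ(1) ⊕ N`, and the motivic torsor of
this motive is then as large as possible.

The 1-motives: let `p_0, …, p_(ρ-1)` be algebraic points of `E`, with elliptic logarithms `w_j`, independent modulo
torsion. For `j, k < ρ` let `G_k` be the extension of `E` by `G_m` which belongs to `p_k` and `M_jk = [ℤ → G_k]` a
1-motive which maps `1` to some algebraic point of `G_k` above `p_j`. Let `(P e, Q e)`, `e < m`, be different unordered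
pairs and `M = h_1(E) ⊕ ⨁_j [ℤ → E] ⊕ ⨁_e M_(P e, Q e)`. Its period matrix is block diagonal with the blocks
`Ω = (ω₁, η₁; ω₂, η₂)`, `(Ω, 0; u_j, 1)` with `u_j = (w_j, ζ(w_j))`, and `(2πi, 0, 0; ξ_k, Ω, 0; s_e, u_j, 1)` for
`(P e, Q e) = (j, k)`, with the periods of the third kind `ξ_k = (η_a w_k - ω_a ζ(w_k))_a` and an elliptic integral `s_e` of
the third kind. The theorem holds for all numbers `s_e`. (The 1-motives `[ℤ → G_m]`, the logarithms of algebraic numbers,
can be put into `N`.)

`EllipticSmallestSubtorsor` (helper725, in this folder) is the case of one curve and a sum `N` of motives `[ℤ → G_m]`.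

## Proof

`Pool.Agent.U100.FP`. Let `T` be a subtorsor over `ℚ̄` which contains the period matrix of `M ⊕ N`, with one curve, and `𝔩`
its Lie algebra, of elements `(A, Y, t, V)`. If `𝔩` contains an element `(A, Y, t, 0)` with `A` not scalar, then it
contains all `(A, Y, t, 0)` with `tr A = 0`, by the linear independence of elliptic integrals of the second kind
(`Perf.lean`), and `T` is stable under the corresponding group (`InL.lean`). If not, `sl_2` is a quotient of the Lie algebra
of `N`, and it is then even a quotient of the Lie algebra of the graded pieces of rank at least two (`Blk.lean`); so all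
derivations of `ℂ` which kill the periods of these kill the quotients of the periods of `E`. If this happens for several
curves with the same kernel, then Goursat's lemma and Skolem-Noether give an algebraic relation between their periods
(`Gou.lean`). So the kernels differ, and `sl_2^X` is a quotient of a Lie algebra of block triangular matrices, which gives
`3 |X| ≤ ∑ (n_v² - 1)` (`Cnt.lean`). Several curves: a curve which is not exceptional for `N` is not exceptional for
`M ⊕ N`, `M` any 1-motive over a power of another curve: if the Lie algebra of `M' ⊕ M ⊕ N` does not contain the `sl_2` of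
`M'`, then this `sl_2` is a quotient of the `sl_2` of `M`, and the curves are linked (`Ext2.lean`). The smallest
subtorsor is then found by induction, using that the character `ℚ(1)` is already there (`Ext3.lean`).
-/

set_option autoImplicit false

open Matrix
open scoped PeriodPair

namespace Pool.Agent.Results.MP_5d33ca_ag.FibreProducts

/-- `T` is (the set of complex points of) a `K`-subtorsor of `GL_B = Iso (M_dR, M_B)`: it is closed under `x y⁻¹ z`, and
it is defined in `GL_B` by polynomials with coefficients in `K`. -/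
def IsSubtorsor (K : Subfield ℂ) {B : Type} [Fintype B] [DecidableEq B] (T : Set (Matrix B B ℂ)) : Prop :=
  (∀ x ∈ T, ∀ y ∈ T, ∀ z ∈ T, x * y⁻¹ * z ∈ T) ∧ ∃ J : Set (MvPolynomial (B × B) K), ∀ x : Matrix B B ℂ, x ∈ T ↔
    IsUnit x ∧ ∀ p ∈ J, MvPolynomial.eval (fun b => x b.1 b.2) (MvPolynomial.map (algebraMap K ℂ) p) = 0

/-- `Ω` is the smallest `K`-subtorsor which contains the period matrix `c` -/
def IsOmega (K : Subfield ℂ) {B : Type} [Fintype B] [DecidableEq B] (c : Matrix B B ℂ) (Ω : Set (Matrix B B ℂ)) : Prop :=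
  IsSubtorsor K Ω ∧ c ∈ Ω ∧ ∀ T : Set (Matrix B B ℂ), IsSubtorsor K T → c ∈ T → Ω ⊆ T

/-- The Weierstrass zeta function `ζ(z) = 1/z + ∑_{l ≠ 0} (1/(z - l) + 1/l + z/l²)` (in Lean `1/0 = 0`, so that the term
with `l = 0` of the sum below is `1/z`). -/
noncomputable def zetaW (L : PeriodPair) (z : ℂ) : ℂ := ∑' l : L.lattice, (1 / (z - l) + 1 / l + z / l ^ 2)

/-- the matrix of the periods `ω` and the quasi-periods `2 ζ(ω / 2)` -/
noncomputable def periods (L : PeriodPair) : Matrix (Fin 2) (Fin 2) ℂ :=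
  !![L.ω₁, 2 * zetaW L (L.ω₁ / 2); L.ω₂, 2 * zetaW L (L.ω₂ / 2)]

/-- an algebraic relation of rank two between the periods of two curves -/
def Linked (L L' : PeriodPair) : Prop :=
  ∃ g c : Matrix (Fin 2) (Fin 2) ℂ, (∀ i j, IsAlgebraic ℚ (g i j)) ∧ (∀ i j, IsAlgebraic ℚ (c i j)) ∧
    g.det ≠ 0 ∧ g * periods L' = periods L * c

/-- the index set of the period matrix of `M ⊕ N` -/
abbrev Idx (ρ : ℕ) (I ν : Type) : Type := Fin 2 ⊕ ((Fin 3 × Fin ρ) ⊕ ((Fin 4 × I) ⊕ ν))

/-- the matrices of the shape of the period matrix of `M ⊕ N` -/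
def shape {ρ : ℕ} {I ν : Type} [DecidableEq I] (P Q : I → Fin ρ) (X : Matrix (Fin 2) (Fin 2) ℂ) (l : ℂ)
    (Y : Fin ρ → Fin 2 → ℂ) (t : I → ℂ) (V : Matrix ν ν ℂ) : Matrix (Idx ρ I ν) (Idx ρ I ν) ℂ :=
  fromBlocks X 0 0 (fromBlocks
    (blockDiagonal fun j => !![X 0 0, X 0 1, 0; X 1 0, X 1 1, 0; Y j 0, Y j 1, 1]) 0 0
    (fromBlocks (blockDiagonal fun e =>
      !![l, 0, 0, 0;
        X 0 1 * Y (Q e) 0 - X 0 0 * Y (Q e) 1, X 0 0, X 0 1, 0;
        X 1 1 * Y (Q e) 0 - X 1 0 * Y (Q e) 1, X 1 0, X 1 1, 0;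
        t e, Y (P e) 0, Y (P e) 1, 1]) 0 0 V))

/-- the matrices of the shape of the period matrix of `ℚ(1) ⊕ N` -/
def withTate {ν : Type} (l : ℂ) (V : Matrix ν ν ℂ) : Matrix (Unit ⊕ ν) (Unit ⊕ ν) ℂ :=
  fromBlocks (Matrix.of fun _ _ => l) 0 0 V

/-- the data of a 1-motive over a power of the curve with the index `i`: `ρ` points, with elliptic logarithms `w`, and `m`
extensions with points `(P e, Q e)`, with elliptic integrals `s` of the third kind -/
structure Datum (ι : Type) where
  i : ι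
  ρ : ℕ
  m : ℕ
  w : Fin ρ → ℂ
  P : Fin m → Fin ρ
  Q : Fin m → Fin ρ
  s : Fin m → ℂ

/-- the points are algebraic and independent modulo torsion, and the unordered pairs `{P e, Q e}` are different -/
structure Datum.Valid {ι : Type} (L : ι → PeriodPair) (d : Datum ι) : Prop where
  alg : ∀ j, IsAlgebraic ℚ (℘[L d.i] (d.w j))
  indep : LinearIndependent ℚ (Fin.append ![(L d.i).ω₁, (L d.i).ω₂] d.w)
  pairs : ∀ e e' : Fin d.m, (d.P e = d.P e' ∧ d.Q e = d.Q e') ∨ (d.P e = d.Q e' ∧ d.Q e = d.P e') → e = e'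

/-- the index set of the period matrix of `M_1 ⊕ … ⊕ M_r ⊕ ℚ(1) ⊕ N` -/
def Index {ι : Type} (ν : Type) : List (Datum ι) → Type
  | [] => Unit ⊕ ν
  | d :: ds => Idx d.ρ (Fin d.m) (Index ν ds)

instance instFintype {ι ν : Type} [Fintype ν] : ∀ ds : List (Datum ι), Fintype (Index ν ds)
  | [] => inferInstanceAs (Fintype (Unit ⊕ ν))
  | d :: ds => by
    haveI := instFintype (ν := ν) ds
    exact inferInstanceAs (Fintype (Idx d.ρ (Fin d.m) (Index ν ds)))

instance instDecEq {ι ν : Type} [DecidableEq ν] : ∀ ds : List (Datum ι), DecidableEq (Index ν ds)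
  | [] => inferInstanceAs (DecidableEq (Unit ⊕ ν))
  | d :: ds => by
    haveI := instDecEq (ν := ν) ds
    exact inferInstanceAs (DecidableEq (Idx d.ρ (Fin d.m) (Index ν ds)))

/-- the period matrix of `M_1 ⊕ … ⊕ M_r ⊕ ℚ(1) ⊕ N` -/
noncomputable def periodMatrix {ι ν : Type} (L : ι → PeriodPair) (N : Matrix ν ν ℂ) :
    ∀ ds : List (Datum ι), Matrix (Index ν ds) (Index ν ds) ℂ
  | [] => withTate (2 * Real.pi * Complex.I) N
  | d :: ds => shape d.P d.Q (periods (L d.i)) (2 * Real.pi * Complex.I)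
      (fun j => ![d.w j, zetaW (L d.i) (d.w j)]) d.s (periodMatrix L N ds)

/-- the points above `l` of the fibre product over `ℚ(1)` of `Ω` and of the torsors of the `M_j`: all matrices of the shape
of the period matrix, with `det X_j = k_j l` for the blocks of the curves, and with last block `withTate l V` in `Ω` -/
def fibreProduct {ι ν : Type} (k : ι → ℤ) (Ω : Set (Matrix (Unit ⊕ ν) (Unit ⊕ ν) ℂ)) :
    ∀ ds : List (Datum ι), ℂ → Set (Matrix (Index ν ds) (Index ν ds) ℂ)
  | [], l => {x | x ∈ Ω ∧ ∃ V : Matrix ν ν ℂ, x = withTate l V}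
  | d :: ds, l => {x | ∃ (X : Matrix (Fin 2) (Fin 2) ℂ) (Y : Fin d.ρ → Fin 2 → ℂ) (t : Fin d.m → ℂ)
      (V : Matrix (Index ν ds) (Index ν ds) ℂ), X.det = k d.i * l ∧ V ∈ fibreProduct k Ω ds l ∧
        x = shape d.P d.Q X l Y t V}

/-- the entries of the diagonal blocks of size at least two -/
def bigEntries {ν : Type} (bl : ν → ℕ) (V : Matrix ν ν ℂ) : Set ℂ :=
  {z | ∃ p q r, bl p = bl q ∧ r ≠ p ∧ bl r = bl p ∧ z = V p q}

theorem det_mem {ν : Type} [Fintype ν] [DecidableEq ν] (K : Subfield ℂ) (M : Matrix ν ν ℂ)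
    (h : ∀ p q, M p q ∈ K) : M.det ∈ K := by
  rw [Matrix.det_apply]
  refine sum_mem fun σ _ => ?_
  rw [Units.smul_def, zsmul_eq_mul]
  exact mul_mem (intCast_mem _ _) (prod_mem fun i _ => h _ _)

theorem inv_mem {ν : Type} [Fintype ν] [DecidableEq ν] (K : Subfield ℂ) (M : Matrix ν ν ℂ)
    (h : ∀ p q, M p q ∈ K) (p q : ν) : M⁻¹ p q ∈ K := by
  rw [Matrix.inv_def, Matrix.smul_apply, smul_eq_mul, Ring.inverse_eq_inv']
  refine mul_mem (K.inv_mem (det_mem K M h)) ?_
  rw [Matrix.adjugate_apply]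
  refine det_mem K _ fun r c => ?_
  rw [Matrix.updateRow_apply]
  split_ifs
  · rw [Pi.single_apply]
    split_ifs
    · exact K.one_mem
    · exact K.zero_mem
  · exact h _ _

theorem card_pairs {ν : Type} [Fintype ν] [DecidableEq ν] (bl : ν → ℕ) :
    Fintype.card {p : ν × ν // bl p.1 = bl p.2} =
      ∑ v ∈ Finset.univ.image bl, (Finset.univ.filter fun p => bl p = v).card ^ 2 := by
  rw [Fintype.card_subtype]
  rw [Finset.card_eq_sum_card_fiberwise (f := fun p : ν × ν => bl p.1) (t := Finset.univ.image bl)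
    (fun p _ => Finset.mem_coe.2 (Finset.mem_image_of_mem _ (Finset.mem_univ _)))]
  refine Finset.sum_congr rfl fun v _ => ?_
  rw [sq, ← Finset.card_product]
  congr 1
  ext ⟨p, q⟩
  simp only [Finset.mem_filter, Finset.mem_univ, true_and, Finset.mem_product]
  constructor
  · rintro ⟨h1, h2⟩
    exact ⟨h2, h1 ▸ h2⟩
  · rintro ⟨h1, h2⟩
    exact ⟨h1.trans h2.symm, h1⟩

section nest

open Pool.Agent.U100

variable {ν : Type} [Fintype ν] [DecidableEq ν] {N : Matrix ν ν ℂ} {ι : Type} {L : ι → PeriodPair} {k : ι → ℤ}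
  {K : Subfield ℂ}

theorem unit_pm (hC : ∀ i, FP.Cur (L i) (k i)) (hN : IsUnit N) :
    ∀ ds : List (Datum ι), IsUnit (periodMatrix L N ds)
  | [] => FP.sm_unit.2 ⟨Complex.two_pi_I_ne_zero, hN⟩
  | d :: ds => FP.mat_unit d.P d.Q (k := ((k d.i : ℤ) : ℂ)) (by exact_mod_cast (hC d.i).hn)
      Complex.two_pi_I_ne_zero (hC d.i).det _ _ (unit_pm hC hN ds)

theorem pts_of {d : Datum ι} (h : d.Valid L) : FP.Pts (L d.i) d.P d.Q d.w := ⟨h.alg, h.indep, h.pairs⟩

theorem good_pm (hC : ∀ i, FP.Cur (L i) (k i)) (hN : IsUnit N) (hun : ∀ i j, i ≠ j → ¬ Linked (L i) (L j))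
    {i₀ : ι} (hg : FP.GoodA (L i₀) (k i₀) N) :
    ∀ ds : List (Datum ι), (∀ d ∈ ds, d.Valid L ∧ i₀ ≠ d.i) → FP.GoodA (L i₀) (k i₀) (periodMatrix L N ds)
  | [], _ => hg.tate hN
  | d :: ds, h => by
    have h1 := good_pm hC hN hun hg ds fun d hd => h d (List.mem_cons_of_mem _ hd)
    obtain ⟨h2, h3⟩ := h d List.mem_cons_self
    refine FP.GoodA.ext (hC d.i) (unit_pm hC hN ds) h1 ?_ (pts_of h2) d.s
    rintro ⟨g, c, hg, hc, h4, h5⟩
    exact hun i₀ d.i h3 ⟨g, c, fun p q => Pool.Agent.U725.OM.mem_QB.1 (hg p q),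
      fun p q => Pool.Agent.U725.OM.mem_QB.1 (hc p q), h4, h5⟩

/-- the index of the Tate motive -/
def base : ∀ ds : List (Datum ι), Index ν ds
  | [] => Sum.inl ()
  | _ :: ds => Sum.inr (Sum.inr (Sum.inr (base ds)))

theorem shape_last {ρ : ℕ} {I ν : Type} [DecidableEq I] (P Q : I → Fin ρ) (X : Matrix (Fin 2) (Fin 2) ℂ) (l : ℂ)
    (Y : Fin ρ → Fin 2 → ℂ) (t : I → ℂ) (V : Matrix ν ν ℂ) (p q : ν) :
    shape P Q X l Y t V (Sum.inr (Sum.inr (Sum.inr p))) (Sum.inr (Sum.inr (Sum.inr q))) = V p q := rfl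

theorem split_pm : ∀ ds : List (Datum ι), FP.Split (base ds) (periodMatrix L N ds) ∧
    periodMatrix L N ds (base ds) (base ds) = 2 * Real.pi * Complex.I
  | [] => by
    refine ⟨?_, rfl⟩
    rintro (⟨⟩ | b) hb
    · exact absurd rfl hb
    · exact ⟨rfl, rfl⟩
  | d :: ds => by
    obtain ⟨h1, h2⟩ := split_pm ds
    refine ⟨?_, h2⟩
    rintro (b | b | b | b) hb
    · exact ⟨rfl, rfl⟩
    · exact ⟨rfl, rfl⟩
    · exact ⟨rfl, rfl⟩
    · exact h1 b fun h => hb (by rw [h]; rfl)

theorem mem_base {Ω : Set (Matrix (Unit ⊕ ν) (Unit ⊕ ν) ℂ)} : ∀ (ds : List (Datum ι)) (l : ℂ)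
    (x : Matrix (Index ν ds) (Index ν ds) ℂ), x ∈ fibreProduct k Ω ds l → x (base ds) (base ds) = l
  | [], l, x, h => by
    obtain ⟨-, V, rfl⟩ := h
    rfl
  | d :: ds, l, x, h => by
    obtain ⟨X, Y, t, V, -, h1, rfl⟩ := h
    exact mem_base ds l V h1

theorem om_pm (hC : ∀ i, FP.Cur (L i) (k i)) (hN : IsUnit N) (hun : ∀ i j, i ≠ j → ¬ Linked (L i) (L j))
    (hK : ∀ x ∈ K, IsAlgebraic ℚ x) : ∀ ds : List (Datum ι),
    (∀ d ∈ ds, FP.GoodA (L d.i) (k d.i) N ∧ d.Valid L) → (ds.map Datum.i).Nodup →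
    FP.Om K (periodMatrix L N ds) =
      {x | ∃ l, x ∈ fibreProduct k (FP.Om K (withTate (2 * Real.pi * Complex.I) N)) ds l}
  | [], _, _ => by
    ext x
    constructor
    · intro hx
      obtain ⟨h1, h2⟩ := FP.om_split (b₀ := (Sum.inl () : Unit ⊕ ν))
        (FP.sm_unit.2 ⟨Complex.two_pi_I_ne_zero, hN⟩) (by
          rintro (⟨⟩ | b) hb
          · exact absurd rfl hb
          · exact ⟨rfl, rfl⟩) hx
      refine ⟨x (Sum.inl ()) (Sum.inl ()), hx, Matrix.of fun p q => x (Sum.inr p) (Sum.inr q), ?_⟩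
      ext p q
      rcases p with ⟨⟩ | p <;> rcases q with ⟨⟩ | q
      · rfl
      · exact (h2 (Sum.inr q) (by simp)).1
      · exact (h2 (Sum.inr p) (by simp)).2
      · rfl
    · rintro ⟨l, hx, -⟩
      exact hx
  | d :: ds, h, hnd => by
    have hu := unit_pm hC hN (L := L) ds
    obtain ⟨hg, hd⟩ := h d List.mem_cons_self
    rw [List.map_cons, List.nodup_cons] at hnd
    have h1 := good_pm hC hN hun hg ds fun d' hd' => ⟨(h d' (List.mem_cons_of_mem _ hd')).2, fun he =>
      hnd.1 (he ▸ List.mem_map_of_mem hd')⟩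
    have ih := om_pm hC hN hun hK ds (fun d hd => h d (List.mem_cons_of_mem _ hd)) hnd.2
    have h2 := FP.good_om (hC d.i) hu (h1.good (hC d.i) hu) (pts_of hd) d.s hK
    obtain ⟨h3, h4⟩ := split_pm (L := L) (N := N) ds
    have h5 := FP.om_graph (K := K) hu h3
    rw [h4] at h5
    have h6 : FP.Om K (periodMatrix L N (d :: ds)) = FP.Fib d.P d.Q ((k d.i : ℤ) : ℂ)
      (FP.Om K (FP.smR (2 * Real.pi * Complex.I) (periodMatrix L N ds))) := h2
    rw [h6, h5]
    ext x
    constructor
    · rintro ⟨X, l, Y, t, V, h7, ⟨y, hy, h8⟩, rfl⟩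
      obtain ⟨h9, rfl⟩ := FP.sm_inj h8
      rw [ih] at hy
      obtain ⟨l', hl'⟩ := hy
      have h10 := mem_base ds l' V hl'
      refine ⟨l, X, Y, t, V, by rw [← h7, Matrix.det_fin_two], ?_, rfl⟩
      rw [h9, h10]
      exact hl'
    · rintro ⟨l, X, Y, t, V, h7, h8, rfl⟩
      have h10 := mem_base ds l V h8
      refine ⟨X, l, Y, t, V, by rw [← h7, Matrix.det_fin_two], ⟨V, ?_, by rw [h10]⟩, rfl⟩
      rw [ih]
      exact ⟨l, h8⟩

end nest

/-- **Main result.** -/
theorem result
    -- the period matrix of a motive with a filtration over the field of algebraic numbers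
    {ν : Type} [Fintype ν] [DecidableEq ν] (N a b : Matrix ν ν ℂ) (hN : IsUnit N) (ha : IsUnit a) (hb : IsUnit b)
    (haK : ∀ p q, IsAlgebraic ℚ (a p q)) (hbK : ∀ p q, IsAlgebraic ℚ (b p q))
    (bl : ν → ℕ) (hbl : (a * N * b).BlockTriangular bl)
    -- elliptic curves over the field of algebraic numbers without complex multiplication
    {ι : Type} (L : ι → PeriodPair) (h2 : ∀ i, IsAlgebraic ℚ (L i).g₂) (h3 : ∀ i, IsAlgebraic ℚ (L i).g₃)
    (hL : ∀ i, ∀ β : ℂ, (∀ ω ∈ (L i).lattice, β * ω ∈ (L i).lattice) → ∃ n : ℤ, β = n)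
    (hun : ∀ i j, i ≠ j → ¬ Linked (L i) (L j)) :
    ∃ (k : ι → ℤ) (X : Set ι), (∀ i, k i ≠ 0 ∧ (periods (L i)).det = k i * (2 * Real.pi * Complex.I)) ∧
      X.Finite ∧
      3 * X.ncard ≤ ∑ v ∈ Finset.univ.image bl, ((Finset.univ.filter fun p => bl p = v).card ^ 2 - 1) ∧
      (Function.Injective bl → X = ∅) ∧
      (∀ i ∈ X, ∀ r c s d, IsAlgebraic (IntermediateField.adjoin ℚ (bigEntries bl (a * N * b)))
        (periods (L i) r c / periods (L i) s d)) ∧
      ∀ K : Subfield ℂ, (∀ x ∈ K, IsAlgebraic ℚ x) →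
        ∃ Ω : Set (Matrix (Unit ⊕ ν) (Unit ⊕ ν) ℂ), IsOmega K (withTate (2 * Real.pi * Complex.I) N) Ω ∧
          -- all 1-motives over powers of different curves which are not exceptional
          ∀ ds : List (Datum ι), (∀ d ∈ ds, d.i ∉ X ∧ d.Valid L) → (ds.map Datum.i).Nodup →
            IsOmega K (periodMatrix L N ds) {x | ∃ l, x ∈ fibreProduct k Ω ds l} := by
  classical
  have hL' : ∀ i, ∀ β ∈ Pool.Agent.W245.EB.kL (L i), ∃ q : ℚ, β = q := by
    rintro i β ⟨n, hn, h⟩
    obtain ⟨c, hc⟩ := hL i _ h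
    refine ⟨c / n, ?_⟩
    have hn' : (n : ℂ) ≠ 0 := by exact_mod_cast hn.ne'
    push_cast
    rw [← hc, mul_div_cancel_left₀ _ hn']
  have hleg : ∀ i, ∃ k : ℤ, k ≠ 0 ∧ (periods (L i)).det = k * (2 * Real.pi * Complex.I) := by
    intro i
    obtain ⟨k, hk, hleg⟩ := Pool.Agent.TH813.Ell.legendre (L i)
    rw [Pool.Agent.U725.OM.eta_half (L i).ω₁_mem_lattice (Pool.Agent.U725.OM.half_notMem_one (L i)),
      Pool.Agent.U725.OM.eta_half (L i).ω₂_mem_lattice (Pool.Agent.U725.OM.half_notMem_two (L i))] at hleg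
    refine ⟨k, hk, ?_⟩
    rw [← hleg, periods, Matrix.det_fin_two_of]
    change (L i).ω₁ * (2 * H667R3.zeta (L i) ((L i).ω₂ / 2)) -
      2 * H667R3.zeta (L i) ((L i).ω₁ / 2) * (L i).ω₂ = _
    ring
  choose k hk hdet using hleg
  have hC : ∀ i, Pool.Agent.U100.FP.Cur (L i) (k i) := fun i =>
    { h2 := h2 i
      h3 := h3 i
      hL := hL' i
      hn := hk i
      det := by
        have := hdet i
        rw [Matrix.det_fin_two] at this
        exact this }
  have haQ : ∀ p q, a p q ∈ Pool.Agent.U725.OM.QB := fun p q =>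
    Pool.Agent.U725.OM.mem_QB.2 (haK p q)
  have hbQ : ∀ p q, b p q ∈ Pool.Agent.U725.OM.QB := fun p q =>
    Pool.Agent.U725.OM.mem_QB.2 (hbK p q)
  obtain ⟨X, hX, hcard, hbad, hgood⟩ := Pool.Agent.U100.FP.mainA (a := a) (a' := a⁻¹) (b := b) (bl := bl)
    L k (by
      rintro i j hij ⟨g, c, hg, hc, h4, h5⟩
      exact hun i j hij ⟨g, c, fun p q => Pool.Agent.U725.OM.mem_QB.1 (hg p q),
        fun p q => Pool.Agent.U725.OM.mem_QB.1 (hc p q), h4, h5⟩) hN
    (Matrix.nonsing_inv_mul _ ((Matrix.isUnit_iff_isUnit_det a).1 ha)) haQ (inv_mem _ a haQ) hbQ hbl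
    ((ha.mul hN).mul hb)
  have hbound : 3 * X.ncard ≤
      ∑ v ∈ Finset.univ.image bl, ((Finset.univ.filter fun p => bl p = v).card ^ 2 - 1) := by
    rw [card_pairs] at hcard
    have h4 : ∑ v ∈ Finset.univ.image bl, (Finset.univ.filter fun p => bl p = v).card ^ 2 =
        ∑ v ∈ Finset.univ.image bl, ((Finset.univ.filter fun p => bl p = v).card ^ 2 - 1) +
          (Finset.univ.image bl).card := by
      rw [Finset.card_eq_sum_ones, ← Finset.sum_add_distrib]
      refine Finset.sum_congr rfl fun v hv => ?_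
      obtain ⟨p, -, hp⟩ := Finset.mem_image.1 hv
      have h5 : 0 < (Finset.univ.filter fun p => bl p = v).card :=
        Finset.card_pos.2 ⟨p, by simp [hp]⟩
      have h6 : 0 < (Finset.univ.filter fun p => bl p = v).card ^ 2 := pow_pos h5 2
      omega
    omega
  refine ⟨k, X, fun i => ⟨hk i, hdet i⟩, hX, hbound, fun hinj => ?_, ?_, ?_⟩
  · have h4 : ∑ v ∈ Finset.univ.image bl, ((Finset.univ.filter fun p => bl p = v).card ^ 2 - 1) = 0 := by
      refine Finset.sum_eq_zero fun v hv => ?_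
      obtain ⟨p, -, hp⟩ := Finset.mem_image.1 hv
      have h5 : (Finset.univ.filter fun p => bl p = v) = {p} := by
        ext q
        simp only [Finset.mem_filter, Finset.mem_univ, true_and, Finset.mem_singleton]
        exact ⟨fun h => hinj (h.trans hp.symm), fun h => h ▸ hp⟩
      rw [h5, Finset.card_singleton]
      norm_num
    rw [h4] at hbound
    exact (Set.ncard_eq_zero hX).1 (by omega)
  · intro i hi r c s d
    have h4 := hbad i hi r c s d
    have h5 : {z : ℂ | ∃ p q, bl p = bl q ∧ Pool.Agent.U100.FP.Big bl p ∧ z = (a * N * b) p q} =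
        bigEntries bl (a * N * b) := by
      ext z
      constructor
      · rintro ⟨p, q, h6, ⟨r, h7, h8⟩, h9⟩
        exact ⟨p, q, r, h6, h7, h8, h9⟩
      · rintro ⟨p, q, r, h6, h7, h8, h9⟩
        exact ⟨p, q, h6, ⟨r, h7, h8⟩, h9⟩
    rw [h5] at h4
    exact h4
  · intro K hK
    have hΩ : ∀ {B : Type} [Fintype B] [DecidableEq B] (c : Matrix B B ℂ), IsUnit c →
        IsOmega K c (Pool.Agent.U100.FP.Om K c) := fun c hc =>
      ⟨Pool.Agent.U100.FP.om_sub hc, fun _ _ h => h, fun T hT hc x hx => hx T hT hc⟩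
    refine ⟨_, hΩ _ (Pool.Agent.U100.FP.sm_unit.2 ⟨Complex.two_pi_I_ne_zero, hN⟩), fun ds hds hnd => ?_⟩
    have h4 := om_pm hC hN hun hK ds (fun d hd => ⟨hgood _ (hds d hd).1, (hds d hd).2⟩) hnd
    have h5 := hΩ _ (unit_pm hC hN (L := L) ds)
    rw [h4] at h5
    exact h5

end Pool.Agent.Results.MP_5d33ca_ag.FibreProducts
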