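import Pool.Agent.Results.MP_cbf1af_ag.HypergeometricTorsors
import Pool.Agent.U534.HypSeq

/-!
# Infinite sums of Kummer motives and hypergeometric motives, relative to all motives

Let `β_j`, `j = 0, 1, 2, …`, be finite nonempty families of rational numbers which are not integers, `m_j` their numbers. We
consider the hypergeometric equations `(θ^(2 m_j) - z ∏_l (θ^2 - β_(j,l)^2)) f = 0`. For `m_j = 1` the solutions are periods
of elliptic curves, for `m_j = 2` and `β_j = (1/5, 2/5)` they are periods of the mirror quintic; the numbers `m_j` may be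
unbounded. The fibre at `z = 1 / t` has the period matrix `(Y_j(t) Ω_j)ᵀ`, where `Y_j(t)` is the matrix of the values of the
Frobenius basis and `Ω_j` is an arbitrary invertible matrix of constants (the periods of the limit motive). We write `M_(j,t)`
for the de Rham-Betti object with this period matrix and `K(t)` for the Kummer motive with the period matrix
`((1, log t), (0, 2πi))`.

Let `M_0, M_1, M_2, …` be any sequence of de Rham-Betti objects over number fields, with arbitrary invertible period
matrices `C_i`: for example all (countably many) motives over all number fields.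

We prove that there are exceptional sets `E_j(t_0, …, t_(j-1))` of natural numbers, which depend on the earlier parameters,
such that `E_j` has at most `M_j (1 + N / (x + N)^(c_j))` elements in every interval `(x, x + N]`, where `c_j > 0` and `M_j` depend
only on the `β_j` and the ranks of the `M_i`, and such that the following holds for EVERY sequence `t_0, t_1, …` with
`t_j ∉ E_j(t_0, …, t_(j-1))` for all `j ≥ j₀`: for every `i`, every number field `K` and all indices `s_1 < … < s_k` with
`max (j₀, [K : ℚ], i) ≤ s_1` the period torsor of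
`M = M_i ⊕ ℚ(-1) ⊕ ⨁_l (K(t_(s_l)) ⊕ M_(s_l, t_(s_l)))`
is as large as possible relative to `M_i ⊕ ℚ(-1)`: if the forms on the Betti side are `(2πi)^(w_l) B_l` with matrices `B_l`
over `K`, then

* every `K`-subtorsor `T` of `Iso(M_dR, M_B)` which contains the period matrix and respects the decomposition, the
extensions and the polarisations is the fibre product of its projection `T_0` to `M_i ⊕ ℚ(-1)`, which is a `K`-subtorsor,
with the torsor of all `(u_l), (X_l)`: it consists of all `x ⊕ μ ⊕ (1, u_l; 0, μ) ⊕ X_l` with `x ⊕ μ ∈ T_0` and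
`X_l J_l X_lᵀ = μ^(w_l) B_l`;

* the smallest `K`-subtorsor which contains the period matrix is the fibre product with the smallest `K`-subtorsor for
`M_i ⊕ ℚ(-1)`, which is the multiplicative group if `M_i = 0`.

So for almost every sequence the period conjecture for every motive `M_i ⊕ ℚ(-1)` over every number field is equivalent to
the period conjecture for the sum with the Kummer motives and the hypergeometric motives of the whole sequence, up to
finitely many indices, which depend only on `i` and on the degree of the number field. The bound for the exceptional sets is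
so strong that the `t_j` can be chosen from every set which contains more than `M_j (1 + N / (x + N)^(c_j))` elements of some
interval `(x, x + N]`; and the choice is possible at every step, regardless of the earlier choices.

Proof. The theorem on relations of bounded degree of the library (`Pool/Agent/Y119/HZ`), applied to relations with
coefficients in the space spanned by products of the entries of `C_i` and of the period matrices of the earlier fibres,
gives the exceptional set; the field of coefficients is `ℚ`, and with the transfer of relations along one-parameter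
unipotent groups (`Rl_desc`) we get stability of the subtorsors over all number fields of degree `≤ j` simultaneously
(`HypAll.stabU`). Hence the exceptional sets do not depend on the number field. The smallest subtorsor for `k + 1` blocks is
determined by adding one block after the other (`HypBlk.allW_succ`): the projection to the earlier blocks is again a
subtorsor, because of a Lagrangian section.
-/

set_option autoImplicit false

open Matrix

namespace Pool.Agent.Results.MP_5d33ca_ag.HypergeometricSequences

open Pool.Agent.Results.MP_cbf1af_ag.HypergeometricTorsors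

theorem omega_zero {K : Subfield ℂ} (hK : ∀ x ∈ K, IsAlgebraic ℚ x) {r : ℕ} (hr : r = 0)
    {C₀ : Matrix (Fin r) (Fin r) ℂ} {Ω₀ : Set (Matrix (Fin r ⊕ Unit) (Fin r ⊕ Unit) ℂ)}
    (h : IsOmega K (withTate C₀ twoPiI) Ω₀) : Ω₀ = {x | IsUnit x} := by
  subst hr
  exact omega_tate hK h

/-- Let `β_j`, `j ∈ ℕ`, be finite nonempty families of rational numbers which are not integers, and let `r_i`, `i ∈ ℕ`, be
natural numbers. There are `c_j > 0` and `M_j` such that for all invertible complex matrices `Ω_j` and `C_i` there are sets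
`E_j(τ_0, …, τ_(j-1))` of natural numbers, with at most `M_j (1 + N / (x + N)^(c_j))` elements in `(x, x + N]` for all
`x, N ≥ 1`, such that for every sequence `t` with `t_j ≥ 2` and `t_j ∉ E_j(t_0, …, t_(j-1))` for all `j ≥ j₀`, all number fields
`K ⊂ ℂ`, all `i` and all strictly increasing `s_1, …, s_k ≥ max (j₀, [K : ℚ], i)` the subtorsors for the sum of
`M_i ⊕ ℚ(-1)`, of the Kummer motives of `t_(s_l)` and of the hypergeometric motives `M_(s_l, t_(s_l))` are fibre products. -/
theorem result (m : ℕ → ℕ) (hm : ∀ j, 1 ≤ m j) (β : ∀ j, Fin (m j) → ℚ) (hβ : ∀ j l, ∀ a : ℤ, β j l ≠ a) (r : ℕ → ℕ) :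
    ∃ c M : ℕ → ℝ, (∀ j, 0 < c j) ∧
      ∀ Ω : (∀ j, Matrix (Fin (2 * m j)) (Fin (2 * m j)) ℂ), (∀ j, IsUnit (Ω j)) →
      ∀ C : (∀ i, Matrix (Fin (r i)) (Fin (r i)) ℂ), (∀ i, IsUnit (C i)) →
      ∃ E : (j : ℕ) → (Fin j → ℕ) → Set ℕ,
        (∀ (j : ℕ) (τ : Fin j → ℕ) (x N : ℕ), 1 ≤ x → 1 ≤ N →
          ((E j τ ∩ Set.Ioc x (x + N)).ncard : ℝ) ≤ M j * (1 + N / ((x : ℝ) + N) ^ c j)) ∧
        ∀ (t : ℕ → ℕ) (j₀ : ℕ), (∀ j, j₀ ≤ j → 2 ≤ t j ∧ t j ∉ E j fun i => t i) →
          ∀ K : Subfield ℂ, FiniteDimensional ℚ K → ∀ (i k : ℕ) (s : Fin k → ℕ), StrictMono s →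
            (∀ l, j₀ ≤ s l ∧ Module.finrank ℚ K ≤ s l ∧ i ≤ s l) →
            FibreProducts K (C i) (fun l => β (s l)) (fun l => Ω (s l)) fun l => t (s l) := by
  classical
  have hβ' : ∀ j, ∀ a, ∀ l : ℕ, (l : ℚ) + β j a ≠ 0 ∧ (l : ℚ) + -β j a ≠ 0 := by
    intro j a l
    constructor
    · intro h
      apply hβ j a (-(l : ℤ))
      push_cast
      linear_combination h
    · intro h
      apply hβ j a (l : ℤ)
      push_cast
      linear_combination -h
  have hQ := fun j => Pool.Agent.Y119.HZ.QD_QB (hm j) (hβ' j)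
  obtain ⟨c, M, hc, hcount⟩ := Pool.Agent.U534.HypU.ex_count (fun j => 2 * m j)
    (fun j => Pool.Agent.Y119.HY.QB (β j)) hQ (fun j a b => Pool.Agent.Y119.HY.sdc_hps (hβ' j) (hQ j) a b) r
  refine ⟨c, M, hc, fun Ω hΩ C hC => ?_⟩
  have h2pi : twoPiI ≠ 0 := Pool.Agent.Y123.GN.tpi_ne
  have hcc : ∀ i, IsUnit (withTate (C i) twoPiI) := fun i => withTate_unit (hC i) h2pi
  refine ⟨Pool.Agent.U534.HypU.Ex (fun j => 2 * m j) (fun j => Pool.Agent.Y119.HY.QB (β j)) Ω
    (fun i => withTate (C i) twoPiI), fun j τ x N hx hN => hcount Ω hΩ _ hcc j τ x N hx hN, ?_⟩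
  intro t j₀ ht K hKf i k s hs hsl
  have hKalg : ∀ x ∈ K, IsAlgebraic ℚ x := by
    intro x hx
    have : NumberField K := { to_charZero := inferInstance, to_finiteDimensional := hKf }
    have h6 : IsAlgebraic ℚ (⟨x, hx⟩ : K) := Algebra.IsAlgebraic.isAlgebraic _
    exact h6.algebraMap (A := ℂ)
  have hall := Pool.Agent.U534.HypU.seqW (n := fun j => 2 * m j) (Q := fun j => Pool.Agent.Y119.HY.QB (β j)) hQ hΩ
    (cc := fun i => withTate (C i) twoPiI) (t := t) (j₀ := j₀) (fun j hj => (ht j hj).1) (fun j hj => (ht j hj).2)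
    hKf i k s hs (fun l => (hsl l).1) (fun l => (hsl l).2.1) (fun l => (hsl l).2.2)
  have hu := hcc i
  have hcm := cm_withTate (C i) twoPiI
  have ht2 : ∀ l, 2 ≤ t (s l) := fun l => (ht _ (hsl l).1).1
  have hper : periodMatrix (C i) (fun l => β (s l)) (fun l => Ω (s l)) (fun l => t (s l)) =
      Pool.Agent.Y123.GN.tot (n := fun l => 2 * m (s l)) (withTate (C i) twoPiI)
        (fun l => Pool.Agent.Y119.HY.QB (β (s l))) (fun l => Ω (s l)) (fun l => t (s l)) := by
    unfold periodMatrix
    have hY : (fun l => (Y (β (s l)) (t (s l)) * Ω (s l))ᵀ) = Pool.Agent.Y123.GN.cM (n := fun l => 2 * m (s l))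
        (fun l => Pool.Agent.Y119.HY.QB (β (s l))) (fun l => Ω (s l)) (fun l => t (s l)) := by
      funext l
      unfold Pool.Agent.Y123.GN.cM
      rw [Y_eq]
    rw [hY]
    rfl
  have hpair : ∀ l, pairing (β (s l)) (Ω (s l)) = Pool.Agent.Y123.GN.PM' (n := fun l => 2 * m (s l))
      (fun l => Pool.Agent.Y119.HY.QB (β (s l))) (fun l => Ω (s l)) l := by
    intro l
    unfold pairing Pool.Agent.Y123.GN.PM'
    rw [J_eq]
  intro w B hBK hP
  have hPB : ∀ l, Pool.Agent.Y123.GN.PM' (n := fun l => 2 * m (s l)) (fun l => Pool.Agent.Y119.HY.QB (β (s l)))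
      (fun l => Ω (s l)) l = Pool.Agent.Y123.GN.tpi ^ w l • B l := by
    intro l
    rw [← hpair]
    exact hP l
  have hBd : ∀ l, (B l).det ≠ 0 := by
    intro l h0
    apply Pool.Agent.Y123.GN.PM'_det (n := fun l => 2 * m (s l)) (fun l => hQ (s l)) (fun l => hΩ (s l)) l
    rw [hPB, det_smul, h0, mul_zero]
  have hJK : ∀ l a b, JJ (fun l => β (s l)) l a b ∈ K := by
    intro l a b
    show Pool.Agent.Y119.HY.cm (Pool.Agent.Y119.HY.Jm (2 * m (s l)) (Pool.Agent.Y119.HY.QB (β (s l)))) a b ∈ K
    rw [Pool.Agent.Y119.HY.cm_apply]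
    exact SubfieldClass.ratCast_mem K _
  have key : ∀ T : Set (Matrix (Index (r i) fun l => m (s l)) (Index (r i) fun l => m (s l)) ℂ),
      Pool.Agent.TH127.PT.IsSubtorsor K T →
      periodMatrix (C i) (fun l => β (s l)) (fun l => Ω (s l)) (fun l => t (s l)) ∈ T →
      T ⊆ Pool.Agent.Y123.GN.FPM (n := fun l => 2 * m (s l)) (JJ fun l => β (s l)) B w (Sum.inr ()) {x | IsUnit x} →
      Pool.Agent.TH127.PT.IsSubtorsor K (Pool.Agent.Y123.GN.PJ (n := fun l => 2 * m (s l)) T) ∧
        T = Pool.Agent.Y123.GN.FPM (n := fun l => 2 * m (s l)) (JJ fun l => β (s l)) B w (Sum.inr ())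
          (Pool.Agent.Y123.GN.PJ T) := by
    intro T hT hcT hTF
    exact hall w B hPB T hT (by rw [← hper]; exact hcT) hTF
  refine ⟨?_, ?_⟩
  · intro T hT hcT hTr
    have hT'' := Pool.Agent.Y123.ST.subT_iff.1 hT
    obtain ⟨h5, h6⟩ := key T hT'' hcT (respecting_sub hT''.isUnit hTr)
    rw [proj_eq hTr] at h5 h6
    rw [fibreProduct_eq] at h6
    exact ⟨Pool.Agent.Y123.ST.subT_iff.2 h5, h6⟩
  · have hΩ₀ := Pool.Agent.Y123.SR.OmS_om (K := K) hu
    refine ⟨_, hΩ₀, ?_, ?_⟩
    · exact fun hr => omega_zero hKalg hr hΩ₀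
    · have h5 := Pool.Agent.Y123.GN.pj_om (n := fun l => 2 * m (s l)) (b₀ := Sum.inr ()) (w := w)
        (l := fun l => ((Real.log (t (s l)) : ℝ) : ℂ)) (c := Pool.Agent.Y123.GN.cM (n := fun l => 2 * m (s l))
          (fun l => Pool.Agent.Y119.HY.QB (β (s l))) (fun l => Ω (s l)) fun l => t (s l)) hBd hJK hBK hu hcm (fun l => by
        have h6 := Pool.Agent.Y123.GN.cM_form (n := fun l => 2 * m (s l)) (fun l => hQ (s l)) (fun l => Ω (s l)) ht2 l
        rw [hPB] at h6
        exact h6) (fun T hT hcT hTF => by
        have h6 := key T hT (by rw [hper]; exact hcT) hTF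
        exact ⟨h6.2, h6.1⟩) hΩ₀
      rw [fibreProduct_eq] at h5
      rw [hper]
      exact h5

end Pool.Agent.Results.MP_5d33ca_ag.HypergeometricSequences
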