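import Pool.Agent.U400.PM.OnePf

set_option autoImplicit false

/-!
# 1-motives over abelian varieties whose Mumford-Tate domain is a polydisc

Let `A` be an abelian variety over the field `ℚ̄` of algebraic numbers, with a polarization `φ`. Let
`P_i = exp(u_i)` and `Q_l = φ(exp(v_l))` be algebraic points of `A` and of the dual abelian variety,
`G_Q` the extension of `A` by `G_m^s` given by the `Q_l`, and `M = [ℤ^n → G_Q]` a 1-motive over `ℚ̄`
with the images `e_i ↦ R_i` above `P_i`. The periods of `M` are `2 π i`, the periods and
quasi-periods of `A`, the abelian integrals `u_i` and the integrals of the second kind `h_k(u_i)`,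
the periods of the third kind `∑ k, (h_k(v_l) λ_k - v_lk η_k)`, and the integrals of the third kind
`ℓ_il`. The points `R_i` are algebraic, and this means for the logarithms `ℓ_il` that

  `exp(ℓ_il) = q_il · θ(u_i - v_l) / (θ(u_i) θ(-v_l)) · exp(∑ k, h_k(v_l) u_ik)`, `q_il` algebraic:

the function `z ↦ θ(z - v) / (θ(z) θ(-v)) · exp(∑ k, h_k(v) z_k)` is the pullback of a rational
section, over `ℚ̄`, of the extension of `A` by `G_m` given by `v`. We assume that the arguments of
the theta functions are not in the divisor of `θ`. So we get all 1-motives over `A`, up to isogeny.

The motivic Galois group of `M` is the Mumford-Tate group `MT(M)` of the mixed Hodge structure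
`H_1(M)` (Brylinski, André): the smallest algebraic group over `ℚ` which contains the image of the
Deligne torus, which acts on the subspaces `I^{p,q}` of `H_1(M, ℂ)` given by Deligne's splitting.
The conjecture says that the comparison isomorphism is a generic point, over `ℚ̄`, of its torsor under
the motivic Galois group of `M`. A consequence is that every algebraic group `G ⊆ GL(H_B(M))` over
`ℚ`, with a torsor over `ℚ̄` which contains the comparison isomorphism, contains the group `MT(M)` (in
the terminology of André: `Ω^And = Ω^dRB`, for `M` and for all motives in the tensor category generated
by `M`).

**Planes.** Let `C` be an abelian variety over `ℚ̄` such that `A` is a direct factor of `C`, up to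
isogeny, and let `𝔤` be the Lie algebra of the endomorphisms of `H_1(C, ℚ)` which annihilate all classes
that are Hodge classes and de Rham-Betti classes; it is the Lie algebra of the Hodge group of `C`. A plane
`W` (`IsPlane`) is a direct summand of the `𝔤`-module `H_1(C, ℂ)` which is simple and of dimension two,
with the inclusion `P` and the projection `Q`; it need not be defined over `ℚ`. We consider a finite
family of planes `W i` (`PlanarFamily`), such that every two of them satisfy one of the conditions:

* `SameColour`: `[𝔤, 𝔤]` acts on the two planes by equivalent representations;
* `Linked`: there are planes `W i'` and `W j'` of the same colours, such that every element of `𝔤` has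
  the same trace on `W i'` and on `W j'`;
* `Separated`: for some automorphism `s` of the field `ℂ` the representations of `[𝔤, 𝔤]` which are
  conjugate to the two planes belong to real places of different kinds: to `sl(2, ℝ)` and to `su(2)`.

**The domain of `A`** (`DomainOf`). We assume that the part of the Hodge group of `C` which acts
trivially on the planes acts trivially on the Mumford-Tate domain of `A`: if an element of
`[𝔤, 𝔤] ⊗ ℂ` acts trivially on all the planes, then its restriction to `H_1(A, ℂ)` commutes with the
complex structure of `H_1(A, ℝ)`.

**Theorem.** Let `M` be any 1-motive over `ℚ̄` with the abelian part `A`, and let `G` be an algebraic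
group over `ℚ` with a torsor over `ℚ̄` which contains the comparison isomorphism of `M`.

1. `G` contains the derived group of `MT(M)`: it contains `exp (t Z)` for all complex numbers `t` and all
   `Z` in the derived algebra of the Lie algebra of `MT(M)` (`mtLie`: the smallest Lie algebra of
   rational matrices whose complex span contains the Lie algebra of the Deligne torus).
2. If the centre of `𝔤` is rigid (`RigidCentre`) or acts trivially on `H_1(A, ℚ)` (`TrivialCentre`; for
   example, if `C` has no factor of type IV), then `G` contains `MT(M)`.

There is no condition on the points; the deficient 1-motives of Ribet and Jacquinot are included. The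
group `G` is not assumed to be reductive or connected. The unipotent radical of `MT(M)` has the weights
`-1` and `-2` only, so it is contained in the derived group, and part 1 describes it too.

**Which abelian varieties are these?** (Explanations, not part of the statement; see
`PolydiscMotives` in MP_caab05_ag for details.) All abelian varieties `A` whose Mumford-Tate domain is a
product of copies of the upper half plane: then the adjoint group of `MT(A)` is the product of the
groups `Res_{F_j/ℚ} PGL_1(D_j)`, for totally real number fields `F_j` and quaternion algebras `D_j` over
`F_j`, and of groups which act trivially on the domain, and `C` is the product of `A` and of the abelian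
varieties of Shimura and Deligne with `H_1 = D_j ⊗ K_0`. For example:

* products of elliptic curves, of abelian varieties with real multiplication (`dim = [F : ℚ]`) or with
  quaternion multiplication (`dim = 2 [F : ℚ]`, totally indefinite), and of abelian varieties with
  complex multiplication. This is the class of `ModularOneMotives` (MP_ae0f86_nt), without the
  restriction on the factors with complex multiplication (for part 1);
* abelian varieties of type III of dimension `4 e` (`End ⊗ ℚ` a totally definite quaternion algebra over a
  totally real field `F` of degree `e`, of rank two over it); here the Hodge group has no centre, and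
  `MT(M) ⊆ G`;
* abelian varieties of type IV of rank two: `End ⊗ ℚ = K` a CM field, `dim = [K : ℚ]`; for all sets of
  definite and indefinite places. (`RankTwoOneMotives` in MP_ae0f86_nt contains explicit conditions on
  the places and the field `K`, under which `MT(M) ⊆ G`.)
* the fourfolds of Mumford and their generalizations: `[F : ℚ]` arbitrary, tensor representations with
  one factor at a noncompact place at a time; here too `MT(M) ⊆ G`;
* all products and all isogeny factors of these, for fields `F_j` which can be equal, conjugate or
  linearly disjoint.

## What is new

The theorem of `OneMotivesMumfordTate` (MP_5d33ca_ag) gives `MT(M) ⊆ G` if `𝔤` has no proper subalgebra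
which is closed under replicas and acts semisimply with the same commutant. This is not known if there
are several places in one field `F_j` (a subalgebra could come from a subfield of `F_j`), or if the centre
of `𝔤` is not zero. `UnitaryOneMotives` (MP_5d33ca_ag) treats unitary groups under a condition
of separation which is never true in degree two for split algebras, `ModularOneMotives` (MP_ae0f86_nt)
treats planes which are symmetric for the polarization in a sum of such planes, without compact places.
The pure motives generated by `h^1(A)` are treated in `PolydiscMotives` (MP_caab05_ag; the derived
group, and `MT(M)` if the centre acts trivially). New here: all 1-motives over these abelian varieties,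
with their points and unipotent radicals; and the rigid centres.

Nothing is assumed about periods: `AbVar` and `AbVarG` are descriptions of abelian varieties over `ℚ̄`
by theta functions (see `Pool/Agent/Y102/AVDefs.lean`), and the transcendence theorems which are used,
the theorem of Schneider and Lang and the transcendence of `π`, are proved in this repository.

## Proof

Let `𝔮 ⊆ 𝔤` be the Lie algebra of the elements whose restriction to `H_1(A, ℚ)` is in the image of the Lie
algebra of `G`, up to the weights. By the theorems of Schneider and Lang and of Wüstholz `𝔮` is *full*:
it acts semisimply on `H_1(C, ℚ)`, with the same commutant as `𝔤`.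

1. `[𝔮, 𝔮] ⊗ ℂ` acts on the planes by all families of matrices with trace zero which have conjugate
   entries at the planes of the same colour (`U400.PD.det_of`): this is Goursat's lemma, as planes of
   different colours are not equivalent for `[𝔮, 𝔮]`: for linked planes by the equality of the traces
   and the theorem of Schneider and Lang, for separated planes by the signs of the trace forms.
2. Let `N` be the complex structure of `H_1(A, ℝ)`, `N = N_c + N_d` with `N_c` in the centre and `N_d` in
   `[𝔤, 𝔤] ⊗ ℝ`. By a lemma on Cartan involutions (`N113.BT.mem_of_sup`) `N_d` is in `[𝔮, 𝔮] ⊗ ℝ`
   (`U400.PM.dj_of`).
3. The Lie algebra of the rational matrices which normalize the Lie algebra of the elements of the Lie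
   algebra of `G` which act on `Gr^W` by weights, and whose action on `H_1(A, ℚ)` is the restriction of an
   element of `𝔷 + [𝔮, 𝔮]`, up to the weight, contains over `ℂ` the Lie algebra of the Deligne torus
   (`OU.exists_LL`), and its derived algebra is in the Lie algebra of `G` (`OU.LL_gQ`).
4. If the centre is rigid, then it is contained in `𝔮`, by Chevalley's theorem on replicas
   (`OU.CN_le`). So the complex structure of `H_1(A, ℝ)` is in the image of the Lie algebra of `G`
   (`U400.PM.detJ_of'`), and the complex structure of the 1-motive is in the complex span of the Lie
   algebra of `G` (`hodge_stab6`).
-/

open Module Matrix Pool.Agent.Y102 Pool.Agent.R917.OM Pool.Agent.N208.OneM Pool.Agent.U400.PM.One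

noncomputable section

namespace Pool.Agent.Results.MP_5d33ca_ag.PolydiscOneMotives

/-- **Theorem.** Let `M` be a 1-motive over `ℚ̄` with the abelian part `A`, and let `G` be an algebraic
group over `ℚ` with a torsor over `ℚ̄` which contains the comparison isomorphism of `M`. Let `A` be a
direct factor of an abelian variety `C`, and let the `W i`, with the inclusions `P i` and the projections
`Q i`, be a family of planes in `H_1(C, ℂ)`, such that the part of the Hodge group of `C` which acts
trivially on the planes acts trivially on the Mumford-Tate domain of `A`.

1. `G` contains `exp (t Z)` for all complex numbers `t` and all `Z` in the derived algebra of the Lie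
   algebra of the Mumford-Tate group of `M`.
2. If the centre of the Lie algebra of the Hodge group of `C` is rigid or acts trivially on
   `H_1(A, ℚ)`, then `G` contains the Mumford-Tate group of `M`. -/
theorem result (g n s : ℕ) (A : AbVarG g) (u : Fin n → Fin g → ℂ) (v : Fin s → Fin g → ℂ)
    (ℓ : Fin n → Fin s → ℂ) (hM : IsOneMotive A u v ℓ)
    (G : Subgroup (GL (Betti g n s) ℂ)) (hG : IsAlgebraicSubgroup G)
    (hP : ContainsPeriods A u v ℓ G) (g' : ℕ) (C : AbVar g') (f : A.toAbVar.H1 →ₗ[ℚ] C.H1)
    (p : C.H1 →ₗ[ℚ] A.toAbVar.H1) (hF : IsFactor A.toAbVar C f p) (k : ℕ)
    (P : Fin k → Matrix (Fin (2 * g')) (Fin 2) ℂ) (Q : Fin k → Matrix (Fin 2) (Fin (2 * g')) ℂ)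
    (hA : PlanarFamily C P Q) (hD : DomainOf A.toAbVar C f p fun i => P i * Q i) :
    (∀ Z ∈ derived (mtLie A u v ℓ), ∀ t : ℂ, IsIn G (NormedSpace.exp (t • cplx Z))) ∧
    (RigidCentre C ∨ TrivialCentre A.toAbVar C f p → mumfordTate A u v ℓ ≤ G) :=
  Pool.Agent.U400.PM.One.main hM hG hP g' C f p hF k P Q hA hD

end Pool.Agent.Results.MP_5d33ca_ag.PolydiscOneMotives
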